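import Mathlib

/-!
Definitions for the problem on coarsely transitive graphs.
Distances are the path metric `SimpleGraph.dist` (all graphs in the statement are connected).
-/

namespace Pool.Agent.MP_8f2dc9_al

universe u v

/-- `f` is a `(K, C)`-quasi-isometry from the graph `X` to the graph `Y` (path metrics). -/
def IsQuasiIsometry {V : Type u} {W : Type v} (X : SimpleGraph V) (Y : SimpleGraph W)
    (K C : ℝ) (f : V → W) : Prop :=
  (∀ x x' : V, K⁻¹ * (X.dist x x' : ℝ) - C ≤ (Y.dist (f x) (f x') : ℝ) ∧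
      (Y.dist (f x) (f x') : ℝ) ≤ K * (X.dist x x' : ℝ) + C) ∧
    ∀ y : W, ∃ x : V, (Y.dist y (f x) : ℝ) ≤ C

/-- `X` and `Y` are quasi-isometric. -/
def QuasiIsometric {V : Type u} {W : Type v} (X : SimpleGraph V) (Y : SimpleGraph W) : Prop :=
  ∃ K C : ℝ, 1 ≤ K ∧ 0 ≤ C ∧ ∃ f : V → W, IsQuasiIsometry X Y K C f

/-- The automorphism group of `Y` acts transitively on the vertices. -/
def IsVertexTransitive {W : Type v} (Y : SimpleGraph W) : Prop :=
  ∀ a b : W, ∃ g : Y ≃g Y, g a = b

/-- Coarse transitivity, with constants uniform over all pairs of vertices. -/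
def IsCoarselyTransitive {V : Type u} (X : SimpleGraph V) : Prop :=
  ∃ K C : ℝ, 1 ≤ K ∧ 0 ≤ C ∧
    ∀ x y : V, ∃ f : V → V, IsQuasiIsometry X X K C f ∧ f x = y

end Pool.Agent.MP_8f2dc9_al
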